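import Mathlib
import Pool.Agent.V8H34.TR.Main3

/-!
# Short segments of quadratic polynomials: the asymptotic formula, part 1

The local averages of the transference theorem are evaluated in the mean over the constant terms, from the
distribution of the primes in almost all short progressions to a fixed modulus (`S_L1`).
-/

set_option autoImplicit false

namespace Pool.Agent.V8H10.AS

open Finset Filter Topology
open Pool.Agent.H373R2.T7 (Vz pz Vz_pos nuB mem_pz sys_count PerB)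
open Pool.Agent.V8H34.TR

/-- the frequency of the primes in a progression -/
noncomputable def wJ (W J n : ℕ) : ℝ := (#((Icc 1 J).filter (fun j => (n + W * j).Prime)) : ℝ) / J

/-- the expected frequency -/
noncomputable def mW (W : ℕ) (L : ℝ) (n : ℕ) : ℝ :=
  if n.Coprime W then (W : ℝ) / ((Nat.totient W : ℝ) * L) else 0

/-- primes in almost all short progressions to a fixed modulus, in mean -/
def S_L1 : Prop := ∀ W : ℕ, 1 ≤ W → ∀ C1 : ℕ, 1 ≤ C1 → ∀ θ : ℝ, 1 / 3 < θ → ∀ δ η : ℝ, 0 < δ → 0 < η →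
  ∀ᶠ X : ℕ in atTop, ∀ J : ℕ, (X : ℝ) ^ θ ≤ (W * J : ℕ) → ((W * J : ℕ) : ℝ) ≤ δ * X / 4 →
    ∑ n ∈ Icc ⌈δ * X⌉₊ (C1 * X), (if n.Coprime W then
      |(#((Icc 1 J).filter (fun j => (n + W * j).Prime)) : ℝ) / J -
        W / (Nat.totient W * Real.log X)| else 0) ≤ η * (X / Real.log X)

/-- the term of `S_L1` -/
theorem term_eq {W J n : ℕ} {L : ℝ} (hW : 1 ≤ W) (hn : W < n) :
    |wJ W J n - mW W L n| = if n.Coprime W then
      |(#((Icc 1 J).filter (fun j => (n + W * j).Prime)) : ℝ) / J - W / (Nat.totient W * L)| else 0 := by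
  unfold wJ mW
  by_cases h : n.Coprime W
  · rw [if_pos h, if_pos h]
  · rw [if_neg h, if_neg h]
    have h1 : (Icc 1 J).filter (fun j => (n + W * j).Prime) = ∅ := by
      rw [filter_eq_empty_iff]
      intro j hj hp
      rw [Nat.coprime_iff_gcd_eq_one] at h
      have hd : Nat.gcd n W ∣ n + W * j :=
        Nat.dvd_add (Nat.gcd_dvd_left _ _) ((Nat.gcd_dvd_right _ _).mul_right j)
      rcases (Nat.dvd_prime hp).1 hd with h2 | h2
      · exact h h2
      · have h5 : Nat.gcd n W ≤ W := Nat.le_of_dvd (by omega) (Nat.gcd_dvd_right _ _)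
        omega
    rw [h1]
    simp

theorem cop_nat {a : ℕ} {b : ℤ} {K : ℕ} {c : ℤ} {m n : ℕ} (hn : c + gq a b m = n) :
    n.Coprime K.factorial ↔ cop a b K c m := by
  unfold cop
  rw [hn]
  constructor
  · intro h p hp hd
    rw [mem_pz] at hp
    have h1 : p ∣ n := by exact_mod_cast hd
    have h2 := Nat.dvd_gcd h1 ((hp.2.dvd_factorial).2 hp.1)
    rw [h] at h2
    exact hp.2.one_lt.ne' (Nat.dvd_one.1 h2)
  · intro h
    rw [Nat.coprime_iff_gcd_eq_one]
    by_contra h1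
    obtain ⟨p, hp, hpd⟩ := Nat.exists_prime_and_dvd h1
    have h2 : p ∣ K.factorial := hpd.trans (Nat.gcd_dvd_right _ _)
    have h3 : p ∣ n := hpd.trans (Nat.gcd_dvd_left _ _)
    exact h p (by rw [mem_pz]; exact ⟨(hp.dvd_factorial).1 h2, hp⟩) (by exact_mod_cast h3)

theorem tot_inv (K : ℕ) : (K.factorial : ℝ) / (Nat.totient K.factorial : ℝ) = (Vz K)⁻¹ := by
  have hV := Vz_pos K
  have hW : (0 : ℝ) < K.factorial := by exact_mod_cast Nat.factorial_pos K
  rw [tot_fact]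
  field_simp

/-- the local average and the number of the arguments without small prime factors -/
theorem loc_err {a X y J K : ℕ} {b c : ℤ} {L : ℝ} (ha : 1 ≤ a) (hy : y ^ 2 ≤ X)
    (hc1 : (y : ℤ) + b ^ 2 < c) (hc2 : c ≤ X) (hWJ : K.factorial * J ≤ X) :
    |loc a b (PrQ Set.univ y ((a + b.natAbs + 3) * X)) K.factorial J y c -
        ncop a b K c y * ((Vz K)⁻¹ / L)| ≤
      ∑ m ∈ Icc 1 y, |wJ K.factorial J (c + gq a b m).toNat -
        mW K.factorial L (c + gq a b m).toNat| := by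
  classical
  have e1 : loc a b (PrQ Set.univ y ((a + b.natAbs + 3) * X)) K.factorial J y c =
      ∑ m ∈ Icc 1 y, wJ K.factorial J (c + gq a b m).toNat := by
    unfold loc
    apply sum_congr rfl
    intro m hm
    obtain ⟨n, hn, hyn, hnN⟩ := val_range ha hm hy hc1 hc2
    rw [hn, Int.toNat_natCast]
    unfold wJ
    rw [one_div, inv_mul_eq_div]
    congr 1
    rw [card_filter]
    push_cast
    apply sum_congr rfl
    intro j hj
    rw [mem_Icc] at hj
    have h2 : K.factorial * j ≤ K.factorial * J := Nat.mul_le_mul_left _ hj.2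
    have h3 : (n : ℤ) + (K.factorial : ℤ) * (j : ℤ) = ((n + K.factorial * j : ℕ) : ℤ) := by
      push_cast
      ring
    rw [h3, ind_PrQ (by omega) (by omega)]
    simp
  have e2 : (ncop a b K c y : ℝ) * ((Vz K)⁻¹ / L) =
      ∑ m ∈ Icc 1 y, mW K.factorial L (c + gq a b m).toNat := by
    unfold ncop
    rw [card_filter]
    push_cast
    rw [sum_mul]
    apply sum_congr rfl
    intro m hm
    obtain ⟨n, hn, hyn, hnN⟩ := val_range ha hm hy hc1 hc2
    rw [hn, Int.toNat_natCast]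
    unfold mW
    rw [← div_div, tot_inv]
    have h1 := cop_nat (K := K) hn
    by_cases h2 : cop a b K c m
    · rw [if_pos h2, if_pos (h1.2 h2), one_mul]
    · rw [if_neg h2, if_neg (fun h => h2 (h1.1 h)), zero_mul]
  rw [e1, e2, ← sum_sub_distrib]
  exact abs_sum_le_sum_abs _ _

theorem sum_inj {a y n0 N : ℕ} {b : ℤ} (S : Finset ℤ)
    (hS : ∀ c ∈ S, ∀ m ∈ Icc 1 y, ∃ n : ℕ, c + gq a b m = n ∧ n0 ≤ n ∧ n ≤ N)
    (F : ℕ → ℝ) (hF : ∀ n, 0 ≤ F n) :
    ∑ c ∈ S, ∑ m ∈ Icc 1 y, F (c + gq a b m).toNat ≤ y * ∑ n ∈ Icc n0 N, F n := by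
  rw [sum_comm]
  have h1 : ∀ m ∈ Icc 1 y, ∑ c ∈ S, F (c + gq a b m).toNat ≤ ∑ n ∈ Icc n0 N, F n := by
    intro m hm
    have hinj : Set.InjOn (fun c : ℤ => (c + gq a b m).toNat) S := by
      intro c hc c' hc' h
      obtain ⟨n, hn, -⟩ := hS c hc m hm
      obtain ⟨n', hn', -⟩ := hS c' hc' m hm
      simp only at h
      omega
    rw [← sum_image (f := F) hinj]
    apply sum_le_sum_of_subset_of_nonneg
    · intro n hn
      rw [mem_image] at hn
      obtain ⟨c, hc, rfl⟩ := hn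
      obtain ⟨n, hn, h1, h2⟩ := hS c hc m hm
      rw [hn, Int.toNat_natCast, mem_Icc]
      exact ⟨h1, h2⟩
    · intro n _ _
      exact hF n
  refine (sum_le_sum h1).trans ?_
  rw [sum_const, Nat.card_Icc, nsmul_eq_mul, Nat.add_sub_cancel]

/-- the number of the prime values, with small mean error -/
theorem core3 (hL1 : S_L1) (a : ℕ) (ha : 1 ≤ a) (b : ℤ) (θ : ℝ) (hθ : 1 / 6 < θ) (δ : ℝ) (hδ : 0 < δ)
    (d : ℝ) (hd : 0 < d) (Kmin : ℕ) :
    ∃ K : ℕ, Kmin ≤ K ∧ 1 ≤ K ∧ ∀ᶠ X : ℕ in atTop, ∀ y : ℕ, (X : ℝ) ^ θ ≤ y → y ^ 2 ≤ X →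
      ∃ D : ℤ → ℝ, (∀ c, 0 ≤ D c) ∧ (∑ c ∈ Icc 1 (X : ℤ), D c ≤ δ * (X * (y / Real.log X))) ∧
        ∀ c ∈ Icc 1 (X : ℤ), (y : ℤ) + b ^ 2 < c → 2 * d * X ≤ c →
          |(cntP a b c y : ℝ) - SK a b K c * (y / Real.log X)| ≤ D c := by
  classical
  have hθ0 : 0 < θ := by linarith
  set C1 : ℕ := a + b.natAbs + 3 with hC1
  obtain ⟨R1, h0⟩ := trans_sq a ha b θ hθ0 ((δ / 3) ^ 2) (by positivity)
  set K := max Kmin (max R1 1) with hK
  have hK1 : 1 ≤ K := (le_max_right _ _).trans (le_max_right _ _)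
  have hKR : R1 ≤ K := (le_max_left _ _).trans (le_max_right _ _)
  refine ⟨K, le_max_left _ _, hK1, ?_⟩
  have hWn : 1 ≤ K.factorial := Nat.factorial_pos K
  have hWR : (1 : ℝ) ≤ K.factorial := by exact_mod_cast hWn
  have hW0 : (0 : ℝ) < K.factorial := by linarith
  obtain ⟨κ1, hκ1, hκW, h0⟩ := h0 K.factorial hWn
    (fun r hr1 hr2 => Nat.dvd_factorial hr1 (hr2.trans hKR))
  set κ : ℝ := min κ1 (d / (4 * K.factorial)) with hκd
  have hκ : 0 < κ := lt_min hκ1 (by positivity)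
  have hκ2 : κ ≤ d / (4 * K.factorial) := min_le_right _ _
  have h0 := h0 κ hκ (min_le_left _ _)
  have hκW' : κ * K.factorial ≤ 1 :=
    (mul_le_mul_of_nonneg_right (min_le_left _ _) hW0.le).trans hκW
  set θ' : ℝ := θ + 1 / 6 with hθ'
  have hθ'1 : 1 / 3 < θ' := by rw [hθ']; linarith
  have hθ'2 : 0 < θ - 1 / 6 := by linarith
  have hU := hL1 K.factorial hWn C1 (by omega) θ' hθ'1 d (δ / 3) hd (by positivity)
  have hV := Vz_pos K
  have hVi : 0 < (Vz K)⁻¹ := inv_pos.2 hV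
  obtain ⟨Y0, hY0⟩ := eventually_atTop.1 (count_cop a ha b K hK1)
  filter_upwards [h0, hU, eventually_ge_atTop 2, ev_rpow_nat 1 hθ0, ev_rpow_nat (Y0 : ℝ) hθ0,
    ev_log_nat (3 * (Vz K)⁻¹ / (δ * θ)), ev_rpow_nat (2 / κ) hθ'2,
    ev_rpow_nat ((b ^ 2 + K.factorial + 1 : ℝ) / d) (one_pos : (0 : ℝ) < 1)]
    with X h0 hU hX2 hX1 hXY hXV hXκ hXd y hy1 hy2
  obtain ⟨hJ, h0⟩ := h0 y hy1 hy2
  have hX0 : (0 : ℝ) < X := by
    have : 0 < X := by omega
    exact_mod_cast this
  have hX1R : (1 : ℝ) ≤ X := by exact_mod_cast (by omega : 1 ≤ X)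
  have hlogX : 0 < Real.log X := Real.log_pos (by exact_mod_cast (by omega : 1 < X))
  set Y : ℝ := (y : ℝ) / Real.log X with hY
  have hy1R : (1 : ℝ) ≤ y := hX1.trans hy1
  have hy2R : (y : ℝ) ^ 2 ≤ X := by exact_mod_cast hy2
  have hY0' : 0 ≤ Y := by positivity
  set A := PrQ Set.univ y (C1 * X) with hA
  set J := ⌊κ * (y : ℝ) ^ 2⌋₊ with hJd
  have h0 := h0 Set.univ
  rw [← hA] at h0
  have hJle : (J : ℝ) ≤ κ * (y : ℝ) ^ 2 := Nat.floor_le (by positivity)
  have hJge : κ * (y : ℝ) ^ 2 - 1 ≤ J := by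
    have := Nat.lt_floor_add_one (κ * (y : ℝ) ^ 2)
    rw [← hJd] at this
    linarith
  have hWJ : K.factorial * J ≤ X := by
    have h1 : ((K.factorial * J : ℕ) : ℝ) ≤ X := by
      push_cast
      calc (K.factorial : ℝ) * J ≤ K.factorial * (κ * (y : ℝ) ^ 2) :=
            mul_le_mul_of_nonneg_left hJle hW0.le
        _ = (κ * K.factorial) * (y : ℝ) ^ 2 := by ring
        _ ≤ 1 * (y : ℝ) ^ 2 := by gcongr
        _ ≤ X := by linarith
    exact_mod_cast h1
  have hWJ1 : (X : ℝ) ^ θ' ≤ (K.factorial * J : ℕ) := by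
    have e1 : (X : ℝ) ^ θ * (X : ℝ) ^ θ = (X : ℝ) ^ θ' * (X : ℝ) ^ (θ - 1 / 6) := by
      rw [← Real.rpow_add hX0, ← Real.rpow_add hX0]
      congr 1
      rw [hθ']
      ring
    have e2 : (X : ℝ) ^ θ * (X : ℝ) ^ θ ≤ (y : ℝ) ^ 2 := by
      have h0' : 0 ≤ (X : ℝ) ^ θ := by positivity
      nlinarith
    have e3 : 0 < (X : ℝ) ^ θ' := by positivity
    have e3' : 1 ≤ (X : ℝ) ^ θ' := Real.one_le_rpow hX1R (by linarith)
    have e4 : 2 * (X : ℝ) ^ θ' ≤ κ * (y : ℝ) ^ 2 := by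
      rw [div_le_iff₀ hκ] at hXκ
      calc 2 * (X : ℝ) ^ θ' ≤ ((X : ℝ) ^ (θ - 1 / 6) * κ) * (X : ℝ) ^ θ' :=
            mul_le_mul_of_nonneg_right hXκ e3.le
        _ = κ * ((X : ℝ) ^ θ' * (X : ℝ) ^ (θ - 1 / 6)) := by ring
        _ = κ * ((X : ℝ) ^ θ * (X : ℝ) ^ θ) := by rw [e1]
        _ ≤ κ * (y : ℝ) ^ 2 := mul_le_mul_of_nonneg_left e2 hκ.le
    push_cast
    have e5 : (X : ℝ) ^ θ' ≤ J := by linarith
    have hJ0 : (0 : ℝ) ≤ J := Nat.cast_nonneg _
    nlinarith
  have hWJ2 : ((K.factorial * J : ℕ) : ℝ) ≤ d * X / 4 := by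
    push_cast
    calc (K.factorial : ℝ) * J ≤ K.factorial * (d / (4 * K.factorial) * X) := by
          apply mul_le_mul_of_nonneg_left _ hW0.le
          refine hJle.trans ?_
          apply mul_le_mul hκ2 hy2R (by positivity) (by positivity)
      _ = d * X / 4 := by field_simp
  have hU := hU J hWJ1 hWJ2
  refine ⟨fun c => |cnt a b A y c - loc a b A K.factorial J y c| + δ / 3 * Y +
    (if (y : ℤ) + b ^ 2 < c ∧ 2 * d * X ≤ c then ∑ m ∈ Icc 1 y, |wJ K.factorial J (c + gq a b m).toNat -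
        mW K.factorial (Real.log X) (c + gq a b m).toNat| else 0), ?_, ?_, ?_⟩
  · intro c
    have h1 : (0 : ℝ) ≤ if (y : ℤ) + b ^ 2 < c ∧ 2 * d * X ≤ c then
        ∑ m ∈ Icc 1 y, |wJ K.factorial J (c + gq a b m).toNat -
        mW K.factorial (Real.log X) (c + gq a b m).toNat| else 0 := by split_ifs <;> positivity
    positivity
  · rw [sum_add_distrib, sum_add_distrib]
    have e1 : ∑ c ∈ Icc 1 (X : ℤ), |cnt a b A y c - loc a b A K.factorial J y c| ≤ δ / 3 * (X * Y) := by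
      have h1 : (∑ c ∈ Icc 1 (X : ℤ), |cnt a b A y c - loc a b A K.factorial J y c|) ^ 2 ≤
          (δ / 3 * (X * Y)) ^ 2 := by
        have h2 := sq_sum_le_card_mul_sum_sq (s := Icc 1 (X : ℤ))
          (f := fun c => |cnt a b A y c - loc a b A K.factorial J y c|)
        simp only [sq_abs] at h2
        refine h2.trans ?_
        have h3 : ((Icc 1 (X : ℤ)).card : ℝ) = X := by
          rw [Int.card_Icc]
          have : ((X : ℤ) + 1 - 1).toNat = X := by omega
          rw [this]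
        rw [h3]
        calc (X : ℝ) * ∑ c ∈ Icc 1 (X : ℤ), (cnt a b A y c - loc a b A K.factorial J y c) ^ 2 ≤
            X * ((δ / 3) ^ 2 * (X * Y ^ 2)) := mul_le_mul_of_nonneg_left h0 hX0.le
          _ = (δ / 3 * (X * Y)) ^ 2 := by ring
      exact abs_le_of_sq_le_sq' h1 (by positivity) |>.2
    have e2 : ∑ c ∈ Icc 1 (X : ℤ), δ / 3 * Y = δ / 3 * (X * Y) := by
      rw [sum_const, Int.card_Icc, nsmul_eq_mul]
      have : ((X : ℤ) + 1 - 1).toNat = X := by omega
      rw [this]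
      ring
    have e3 : ∑ c ∈ Icc 1 (X : ℤ), (if (y : ℤ) + b ^ 2 < c ∧ 2 * d * X ≤ c then
        ∑ m ∈ Icc 1 y, |wJ K.factorial J (c + gq a b m).toNat -
          mW K.factorial (Real.log X) (c + gq a b m).toNat| else 0) ≤ δ / 3 * (X * Y) := by
      rw [← sum_filter]
      rw [Real.rpow_one, div_le_iff₀ hd] at hXd
      have h1 := sum_inj (a := a) (y := y) (n0 := ⌈d * X⌉₊) (N := C1 * X) (b := b)
        ((Icc 1 (X : ℤ)).filter (fun c : ℤ => (y : ℤ) + b ^ 2 < c ∧ 2 * d * X ≤ c)) (by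
          intro c hc m hm
          rw [mem_filter, mem_Icc] at hc
          obtain ⟨n, hn, hyn, hnN⟩ := val_range ha hm hy2 hc.2.1 hc.1.2
          refine ⟨n, hn, ?_, ?_⟩
          · rw [Nat.ceil_le]
            have h2 := gq_ge a ha b m
            have h3 : (c : ℝ) - (b : ℝ) ^ 2 ≤ n := by
              have : c - b ^ 2 ≤ (n : ℤ) := by omega
              exact_mod_cast this
            have h4 := hc.2.2
            linarith
          · rw [hC1]
            omega) (fun n => |wJ K.factorial J n - mW K.factorial (Real.log X) n|) (fun n => abs_nonneg _)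
      refine h1.trans ?_
      have h5 : ∑ n ∈ Icc ⌈d * X⌉₊ (C1 * X), |wJ K.factorial J n - mW K.factorial (Real.log X) n| ≤
          δ / 3 * (X / Real.log X) := by
        refine le_trans (le_of_eq ?_) hU
        apply sum_congr rfl
        intro n hn
        rw [mem_Icc] at hn
        apply term_eq hWn
        have h6 : d * (X : ℝ) ≤ n := Nat.ceil_le.1 hn.1
        have h7 : (K.factorial : ℝ) < n := by
          have : (0 : ℝ) ≤ (b : ℝ) ^ 2 := by positivity
          linarith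
        exact_mod_cast h7
      calc (y : ℝ) * ∑ n ∈ Icc ⌈d * X⌉₊ (C1 * X), |wJ K.factorial J n - mW K.factorial (Real.log X) n| ≤
          y * (δ / 3 * (X / Real.log X)) := mul_le_mul_of_nonneg_left h5 (by positivity)
        _ = δ / 3 * (X * Y) := by rw [hY]; ring
    rw [e2]
    have e5 : δ * (X * Y) = 3 * (δ / 3 * (X * Y)) := by ring
    rw [e5]
    linarith
  · intro c hc hcy hcd
    rw [mem_Icc] at hc
    simp only [if_pos (And.intro hcy hcd)]
    have hcnt : (cntP a b c y : ℝ) = cnt a b A y c := by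
      rw [hA, hC1, cnt_countQ Set.univ ha hy2 hcy hc.2]
      unfold cntP countQ
      simp
    have h1 := loc_err (K := K) (L := Real.log X) ha hy2 hcy hc.2 hWJ
    rw [← hC1, ← hA] at h1
    have h2 := hY0 y (by
      have : (Y0 : ℝ) ≤ y := hXY.trans hy1
      exact_mod_cast this) c
    have hlogy : θ * Real.log X ≤ Real.log y := by
      have h3 := Real.log_le_log (by positivity) hy1
      rwa [Real.log_rpow hX0] at h3
    have hθL : 0 < θ * Real.log X := by positivity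
    have h3 : |(ncop a b K c y : ℝ) * ((Vz K)⁻¹ / Real.log X) - SK a b K c * Y| ≤ δ / 3 * Y := by
      have e1 : (ncop a b K c y : ℝ) * ((Vz K)⁻¹ / Real.log X) - SK a b K c * Y =
          ((ncop a b K c y : ℝ) - y * (Vz K * SK a b K c)) * ((Vz K)⁻¹ / Real.log X) := by
        rw [hY]
        field_simp
      rw [e1, abs_mul, abs_of_nonneg (by positivity : 0 ≤ (Vz K)⁻¹ / Real.log X)]
      have h4 : (y : ℝ) / Real.log y ≤ y / (θ * Real.log X) :=
        div_le_div_of_nonneg_left (by positivity) hθL hlogy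
      calc |(ncop a b K c y : ℝ) - y * (Vz K * SK a b K c)| * ((Vz K)⁻¹ / Real.log X) ≤
          (y / (θ * Real.log X)) * ((Vz K)⁻¹ / Real.log X) :=
            mul_le_mul_of_nonneg_right (h2.trans h4) (by positivity)
        _ = ((Vz K)⁻¹ / (θ * Real.log X)) * Y := by
            rw [hY]
            field_simp
        _ ≤ δ / 3 * Y := by
            apply mul_le_mul_of_nonneg_right _ hY0'
            rw [div_le_iff₀ hθL]
            rw [div_le_iff₀ (by positivity)] at hXV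
            linarith
    rw [hcnt]
    have h4 : cnt a b A y c - SK a b K c * Y = (cnt a b A y c - loc a b A K.factorial J y c) +
        (loc a b A K.factorial J y c - (ncop a b K c y : ℝ) * ((Vz K)⁻¹ / Real.log X)) +
        ((ncop a b K c y : ℝ) * ((Vz K)⁻¹ / Real.log X) - SK a b K c * Y) := by ring
    rw [h4]
    refine (abs_add_three _ _ _).trans ?_
    linarith

end Pool.Agent.V8H10.AS
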