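import Mathlib
import Pool.Agent.V8H10.AS.Loc

/-!
# Short segments of quadratic polynomials: the asymptotic formula, part 2
-/

set_option autoImplicit false

namespace Pool.Agent.V8H10.AS

open Finset Filter Topology
open Pool.Agent.V8H34.TR
open Pool.Agent.W468.ConjF (SJ)

/-- the few small constant terms -/
theorem small_c {b : ℤ} {δ : ℝ} (hδ : 0 < δ) : ∀ᶠ X : ℕ in atTop, ∀ y : ℕ, y ^ 2 ≤ X →
    (#((Icc 1 (X : ℤ)).filter (fun c => c ≤ (y : ℤ) + b ^ 2)) : ℝ) ≤ δ * X := by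
  filter_upwards [eventually_ge_atTop 2,
    ev_rpow_nat ((1 + (b.natAbs ^ 2 : ℕ)) / δ) (by norm_num : (0 : ℝ) < 1 / 2)] with X hX2 hXb y hy2
  have hX0 : (0 : ℝ) < X := by
    have : 0 < X := by omega
    exact_mod_cast this
  set B2 : Finset ℤ := (Icc 1 (X : ℤ)).filter (fun c => c ≤ (y : ℤ) + b ^ 2) with hB2
  have h4 : #B2 ≤ y + b.natAbs ^ 2 := by
    have h5 : B2 ⊆ Icc 1 ((y : ℤ) + b ^ 2) := by
      intro c hc
      rw [hB2, mem_filter, mem_Icc] at hc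
      rw [mem_Icc]
      exact ⟨hc.1.1, hc.2⟩
    refine (card_le_card h5).trans ?_
    rw [Int.card_Icc]
    have h6 : b ^ 2 = ((b.natAbs ^ 2 : ℕ) : ℤ) := by
      push_cast
      rw [sq_abs]
    rw [h6]
    omega
  have h5 : (#B2 : ℝ) ≤ y + ((b.natAbs ^ 2 : ℕ) : ℝ) := by exact_mod_cast h4
  have hsq : (X : ℝ) ^ (1 / 2 : ℝ) * (X : ℝ) ^ (1 / 2 : ℝ) = X := by
    rw [← Real.rpow_add hX0]
    norm_num
  have hs0 : 0 < (X : ℝ) ^ (1 / 2 : ℝ) := by positivity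
  have hs1 : 1 ≤ (X : ℝ) ^ (1 / 2 : ℝ) :=
    Real.one_le_rpow (by exact_mod_cast (by omega : 1 ≤ X)) (by norm_num)
  have h6 : (y : ℝ) ≤ (X : ℝ) ^ (1 / 2 : ℝ) := by
    have h7 : (y : ℝ) ^ 2 ≤ X := by exact_mod_cast hy2
    nlinarith
  rw [div_le_iff₀ hδ] at hXb
  have hb0 : (0 : ℝ) ≤ ((b.natAbs ^ 2 : ℕ) : ℝ) := Nat.cast_nonneg _
  calc (#B2 : ℝ) ≤ y + ((b.natAbs ^ 2 : ℕ) : ℝ) := h5
    _ ≤ (X : ℝ) ^ (1 / 2 : ℝ) * (1 + ((b.natAbs ^ 2 : ℕ) : ℝ)) := by nlinarith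
    _ ≤ (X : ℝ) ^ (1 / 2 : ℝ) * ((X : ℝ) ^ (1 / 2 : ℝ) * δ) := by
      apply mul_le_mul_of_nonneg_left _ hs0.le
      linarith
    _ = δ * ((X : ℝ) ^ (1 / 2 : ℝ) * (X : ℝ) ^ (1 / 2 : ℝ)) := by ring
    _ = δ * X := by rw [hsq]

open Classical in
/-- **The asymptotic formula for almost all constant terms.** -/
theorem final3 (hL1 : S_L1) (a : ℕ) (ha : 1 ≤ a) (b : ℤ) (θ : ℝ) (hθ : 1 / 6 < θ) (δ : ℝ) (hδ : 0 < δ)
    (hδ1 : δ ≤ 1) :
    ∃ τ₁ : ℝ, 0 < τ₁ ∧ ∀ᶠ X : ℕ in atTop, ∀ y : ℕ, (X : ℝ) ^ θ ≤ y → y ^ 2 ≤ X →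
      ∃ Bad ⊆ Icc 1 (X : ℤ), (#Bad : ℝ) ≤ δ * X ∧ ∀ c ∈ Icc 1 (X : ℤ), c ∉ Bad → Adm a b c →
        ∃ C : ℝ, (0 < C ∧ Tendsto (fun z => pC a b c z) atTop (𝓝 C)) ∧ τ₁ ≤ epsi a b * C * gP a b ∧
          |(cntP a b c y : ℝ) - epsi a b * C * gP a b * (y / Real.log X)| ≤
            δ * (epsi a b * C * gP a b * (y / Real.log X)) := by
  have hθ0 : 0 < θ := by linarith
  have haz : (0 : ℤ) < a := by exact_mod_cast ha
  set δs : ℝ := δ / 160 with hδs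
  have hδs0 : 0 < δs := by positivity
  obtain ⟨Ks, hKs⟩ := sing_tail a haz b δs hδs0
  set K0 : ℕ := max (max Ks ⌈800 / δ⌉₊) (max a 2) with hK0
  have hK0s : Ks ≤ K0 := (le_max_left _ _).trans (le_max_left _ _)
  have hK0δ : ⌈800 / δ⌉₊ ≤ K0 := (le_max_right _ _).trans (le_max_left _ _)
  have hK0a : a ≤ K0 := (le_max_left _ _).trans (le_max_right _ _)
  have hK02 : 2 ≤ K0 := (le_max_right _ _).trans (le_max_right _ _)
  have h5K : ∀ K : ℕ, K0 ≤ K → 5 / (K : ℝ) ≤ δ / 160 := by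
    intro K hK
    have h1 : 800 / δ ≤ K := (Nat.le_ceil _).trans (by exact_mod_cast hK0δ.trans hK)
    have h2 : (0 : ℝ) < K := lt_of_lt_of_le (by positivity) h1
    rw [div_le_iff₀ h2]
    rw [div_le_iff₀ hδ] at h1
    linarith
  have hδsK : ∀ K : ℕ, K0 ≤ K → δs + 5 / K ≤ 1 / 2 := fun K hK => by
    have := h5K K hK
    linarith
  have h2δ : ∀ K : ℕ, K0 ≤ K → 2 * (δs + 5 / (K : ℝ)) ≤ δ / 40 := fun K hK => by
    have := h5K K hK
    linarith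
  obtain ⟨τ0, hτ0, hτ⟩ := SK_tau a b K0
  set τ : ℝ := τ0 / 3 with hτd
  have hτp : 0 < τ := by positivity
  set τ' : ℝ := min τ 1 with hτ'
  have hτ'0 : 0 < τ' := lt_min hτp one_pos
  have hτ'1 : τ' ≤ 1 := min_le_right _ _
  have hτ'τ : τ' ≤ τ := min_le_left _ _
  set ρ : ℝ := δ * τ' / 10 with hρ
  have hρ0 : 0 < ρ := by positivity
  have hρδ : ρ ≤ δ / 10 := by
    rw [hρ]
    have : δ * τ' ≤ δ * 1 := mul_le_mul_of_nonneg_left hτ'1 hδ.le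
    linarith
  have hρτ : ρ ≤ δ / 10 * τ := by
    rw [hρ]
    have : δ * τ' ≤ δ * τ := mul_le_mul_of_nonneg_left hτ'τ hδ.le
    linarith
  obtain ⟨K, hKmin, hK1, hcore⟩ := core3 hL1 a ha b θ hθ (ρ ^ 2) (by positivity)
    (δ / 16) (by positivity) K0
  have hKa : a ≤ K := hK0a.trans hKmin
  have hK2 : 2 ≤ K := hK02.trans hKmin
  obtain ⟨X1, hX1⟩ := hKs K0 hK0s
  obtain ⟨X2, hX2⟩ := hKs K (hK0s.trans hKmin)
  have hsm := small_c (b := b) (δ := δ / 4) (by positivity)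
  refine ⟨39 / 40 * τ, by positivity, ?_⟩
  filter_upwards [hcore, hsm, eventually_ge_atTop X1, eventually_ge_atTop X2, eventually_ge_atTop 2,
    ev_rpow_nat 1 hθ0] with X hcore hsm hXX1 hXX2 hX2' hX1θ y hy1 hy2
  obtain ⟨D, hD0, hD1, hD2⟩ := hcore y hy1 hy2
  have hsm := hsm y hy2
  obtain ⟨Ex0, hEx0, hE0⟩ := hX1 X hXX1
  obtain ⟨Ex1, hEx1, hE1⟩ := hX2 X hXX2
  have hX0 : (0 : ℝ) < X := by
    have : 0 < X := by omega
    exact_mod_cast this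
  have hlogX : 0 < Real.log X := Real.log_pos (by exact_mod_cast (by omega : 1 < X))
  have hy1R : (1 : ℝ) ≤ y := hX1θ.trans hy1
  set Y : ℝ := (y : ℝ) / Real.log X with hY
  have hY0 : 0 < Y := by positivity
  -- the constants
  have hconst : ∀ c ∈ Icc 1 (X : ℤ), c ∉ Ex0 → c ∉ Ex1 → Adm a b c → τ ≤ SK a b K c ∧
      ∃ C : ℝ, 0 < C ∧ Tendsto (fun z => pC a b c z) atTop (𝓝 C) ∧
        |epsi a b * C * gP a b - SK a b K c| ≤ δ / 40 * SK a b K c := by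
    intro c hc h0 h1 hadm
    rw [mem_Icc] at hc
    obtain ⟨hs0, hJ0⟩ := hE0 c hc.1 hc.2 h0
    obtain ⟨hs1, hJ1⟩ := hE1 c hc.1 hc.2 h1
    have hLc : Lc a b c := ⟨hadm.2.1, hadm.2.2.1⟩
    obtain ⟨C0, hC0, hlim0, hab0⟩ := const_lim ha hLc hK0a hK02 hδs0.le (hδsK K0 le_rfl) hs0 hJ0
    obtain ⟨C1, hC1, hlim1, hab1⟩ := const_lim ha hLc hKa hK2 hδs0.le (hδsK K hKmin) hs1 hJ1
    have hCC := tendsto_nhds_unique hlim0 hlim1
    have hS0 := SK_pos hLc K0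
    have hS1 := SK_pos hLc K
    have hτc := hτ c hS0
    refine ⟨?_, C1, hC1, hlim1, ?_⟩
    · rw [hCC] at hab0
      rw [abs_le] at hab0 hab1
      have e0 := mul_le_mul_of_nonneg_right (h2δ K0 le_rfl) hS0.le
      have e1 := mul_le_mul_of_nonneg_right (h2δ K hKmin) hS1.le
      have e2 : δ / 40 * SK a b K0 c ≤ 1 / 40 * SK a b K0 c := by gcongr
      have e3 : δ / 40 * SK a b K c ≤ 1 / 40 * SK a b K c := by gcongr
      linarith [hab0.1, hab1.2]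
    · exact hab1.trans (mul_le_mul_of_nonneg_right (h2δ K hKmin) hS1.le)
  set BX : Finset ℤ := (Icc 1 (X : ℤ)).filter (fun c => c ∈ Ex0 ∨ c ∈ Ex1) with hBX
  have hBXc : (#BX : ℝ) ≤ δ / 80 * X := by
    have h1 : #BX ≤ #Ex0 + #Ex1 := by
      refine (card_le_card (t := Ex0 ∪ Ex1) ?_).trans (card_union_le _ _)
      intro c hc
      rw [hBX, mem_filter] at hc
      exact mem_union.2 hc.2
    have h2 : (#BX : ℝ) ≤ (#Ex0 : ℝ) + #Ex1 := by exact_mod_cast h1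
    rw [hδs] at hEx0 hEx1
    linarith
  set B1 : Finset ℤ := (Icc 1 (X : ℤ)).filter (fun c => ρ * Y < D c) with hB1
  have hB1c : (#B1 : ℝ) ≤ ρ * X := by
    have h1 : (#B1 : ℝ) * (ρ * Y) ≤ ∑ c ∈ Icc 1 (X : ℤ), D c := by
      calc (#B1 : ℝ) * (ρ * Y) = ∑ c ∈ B1, ρ * Y := by rw [sum_const, nsmul_eq_mul]
        _ ≤ ∑ c ∈ B1, D c := by
          apply sum_le_sum
          intro c hc
          rw [hB1, mem_filter] at hc
          exact hc.2.le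
        _ ≤ ∑ c ∈ Icc 1 (X : ℤ), D c :=
          sum_le_sum_of_subset_of_nonneg (filter_subset _ _) fun c _ _ => hD0 c
    have h2 := h1.trans hD1
    have h3 : ρ ^ 2 * (X * Y) = (ρ * X) * (ρ * Y) := by ring
    rw [h3] at h2
    exact le_of_mul_le_mul_right h2 (by positivity)
  set B2 : Finset ℤ := (Icc 1 (X : ℤ)).filter (fun c => c ≤ (y : ℤ) + b ^ 2) with hB2
  set B3 : Finset ℤ := (Icc 1 (X : ℤ)).filter (fun c => (c : ℝ) < 2 * (δ / 16) * X) with hB3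
  have hB3c : (#B3 : ℝ) ≤ δ / 8 * X := by
    have h1 : B3 ⊆ Icc 1 ((⌊δ / 8 * X⌋₊ : ℕ) : ℤ) := by
      intro c hc
      rw [hB3, mem_filter, mem_Icc] at hc
      rw [mem_Icc]
      refine ⟨hc.1.1, ?_⟩
      obtain ⟨k, rfl⟩ := Int.eq_ofNat_of_zero_le (by omega : 0 ≤ c)
      have h2 : (k : ℝ) ≤ δ / 8 * X := by
        have h3 := hc.2
        rw [Int.cast_natCast] at h3
        linarith
      exact_mod_cast Nat.le_floor h2
    have h2 := card_le_card h1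
    rw [Int.card_Icc] at h2
    have h3 : ((⌊δ / 8 * X⌋₊ : ℕ) : ℤ) + 1 - 1 = ((⌊δ / 8 * X⌋₊ : ℕ) : ℤ) := by ring
    rw [h3, Int.toNat_natCast] at h2
    have h4 : (#B3 : ℝ) ≤ (⌊δ / 8 * X⌋₊ : ℝ) := by exact_mod_cast h2
    exact h4.trans (Nat.floor_le (by positivity))
  refine ⟨BX ∪ B1 ∪ B2 ∪ B3, ?_, ?_, ?_⟩
  · rw [union_subset_iff, union_subset_iff, union_subset_iff]
    exact ⟨⟨⟨filter_subset _ _, filter_subset _ _⟩, filter_subset _ _⟩, filter_subset _ _⟩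
  · have h1 : (#(BX ∪ B1) : ℝ) ≤ (#BX : ℝ) + #B1 := by exact_mod_cast card_union_le _ _
    have h1' : (#(BX ∪ B1 ∪ B2) : ℝ) ≤ (#(BX ∪ B1) : ℝ) + #B2 := by exact_mod_cast card_union_le _ _
    have h1'' : (#(BX ∪ B1 ∪ B2 ∪ B3) : ℝ) ≤ (#(BX ∪ B1 ∪ B2) : ℝ) + #B3 := by
      exact_mod_cast card_union_le _ _
    have h2 : ρ * X ≤ δ / 10 * X := mul_le_mul_of_nonneg_right hρδ hX0.le
    have h3 : 0 ≤ δ * X := by positivity
    linarith
  · intro c hc hcB hadm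
    rw [mem_union, mem_union, mem_union, not_or, not_or, not_or, hBX, hB1, hB2, hB3, mem_filter,
      mem_filter, mem_filter, mem_filter] at hcB
    obtain ⟨⟨⟨hcB1, hcB2⟩, hcB3⟩, hcB4⟩ := hcB
    have h0 : c ∉ Ex0 := fun h => hcB1 ⟨hc, Or.inl h⟩
    have h1 : c ∉ Ex1 := fun h => hcB1 ⟨hc, Or.inr h⟩
    have h2 : D c ≤ ρ * Y := by
      by_contra h3
      exact hcB2 ⟨hc, not_le.1 h3⟩
    have hcy : (y : ℤ) + b ^ 2 < c := by
      by_contra h3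
      exact hcB3 ⟨hc, not_lt.1 h3⟩
    have hcd : 2 * (δ / 16) * X ≤ c := by
      by_contra h3
      exact hcB4 ⟨hc, not_le.1 h3⟩
    obtain ⟨hτS, C, hC, hlim, hab⟩ := hconst c hc h0 h1 hadm
    refine ⟨C, ⟨hC, hlim⟩, ?_⟩
    have h3 := hD2 c hc hcy hcd
    have hS : 0 < SK a b K c := lt_of_lt_of_le hτp hτS
    have h4 : ρ ≤ δ / 10 * SK a b K c := hρτ.trans (mul_le_mul_of_nonneg_left hτS (by positivity))
    set G : ℝ := epsi a b * C * gP a b with hG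
    have h5 : (1 - δ / 40) * SK a b K c ≤ G := by
      rw [abs_le] at hab
      linarith [hab.1]
    have h6 : 39 / 40 * SK a b K c ≤ G := by
      have : δ / 40 * SK a b K c ≤ 1 / 40 * SK a b K c := by gcongr
      linarith
    refine ⟨by linarith, ?_⟩
    have h7 : |(cntP a b c y : ℝ) - G * Y| ≤ (δ / 10 + δ / 40) * SK a b K c * Y := by
      have e1 : (cntP a b c y : ℝ) - G * Y = ((cntP a b c y : ℝ) - SK a b K c * Y) -
          (G - SK a b K c) * Y := by ring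
      rw [e1]
      refine (abs_sub _ _).trans ?_
      rw [abs_mul, abs_of_pos hY0]
      have e2 : ρ * Y ≤ δ / 10 * SK a b K c * Y := mul_le_mul_of_nonneg_right h4 hY0.le
      have e3 := mul_le_mul_of_nonneg_right hab hY0.le
      calc |(cntP a b c y : ℝ) - SK a b K c * Y| + |G - SK a b K c| * Y ≤
          δ / 10 * SK a b K c * Y + δ / 40 * SK a b K c * Y := by linarith
        _ = (δ / 10 + δ / 40) * SK a b K c * Y := by ring
    refine h7.trans ?_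
    have h8 : (δ / 10 + δ / 40) * SK a b K c ≤ δ * G := by
      have e1 : δ * (39 / 40 * SK a b K c) ≤ δ * G := mul_le_mul_of_nonneg_left h6 hδ.le
      have e2 : 0 ≤ δ * SK a b K c := by positivity
      linarith
    calc (δ / 10 + δ / 40) * SK a b K c * Y ≤ (δ * G) * Y := mul_le_mul_of_nonneg_right h8 hY0.le
      _ = δ * (G * Y) := by ring

end Pool.Agent.V8H10.AS
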