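import Mathlib
import Pool.Agent.V8H34.CR.Sic
import Pool.Agent.V8H34.CR.Dpl
import Pool.Agent.V8H34.CR.FinA
import Pool.Agent.V8H34.CR.Win
import Pool.Agent.V8H34.CR.Low
import Pool.Agent.V8H34.CR.Fd
import Pool.Agent.V8H34.CR.Pw
import Pool.Agent.V8H34.CR.Mvg
import Pool.Agent.V8H34.CR.Dv
import Pool.Agent.V8H34.CR.Hb
import Pool.Agent.V8H34.CR.Zsb
import Pool.Agent.V8H34.CR.Tnb
import Pool.Agent.V8H34.CR.Moc
import Pool.Agent.V8H34.CR.Lzf
import Pool.Agent.V8H34.CR.Lup
import Pool.Agent.V8H34.CR.Chr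
import Pool.Agent.Q53.CR.SDB
import Pool.Agent.Q53.CR.SHB

/-!
# Project CR: the distribution of the primes (with characters) in almost all short intervals, unconditionally
-/

set_option autoImplicit false

namespace Pool.Agent.V8H10.AS

open Finset Filter
open Pool.Agent.Q236.CR Pool.Agent.V8H34.CR

theorem chr_all : S_CHR := Chr.chr (zsb tnb Pool.Agent.Q53.CR.shb) Pool.Agent.Q53.CR.sdb

theorem moc_all : S_MOC := Moc.moc (Lzf.lzf (Lup.lup chr_all))

theorem pw_all : S_PW := Pw.pw chr_all moc_all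

theorem dpl_all : S_DPL := dpl Hb.hb1 (mvg dv) pw_all chr_all Fd.fd

theorem sic_all : S_SIC := sic dpl_all Win.win low Fd.fd

end Pool.Agent.V8H10.AS
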