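import Mathlib
import Pool.Agent.V8H10.AS.Asy
import Pool.Agent.V8H10.AS.SicAll

/-!
# Short segments of quadratic polynomials: the asymptotic formula, unconditionally
-/

set_option autoImplicit false

namespace Pool.Agent.V8H10.AS

open Finset Filter Topology
open Pool.Agent.V8H34.TR

theorem l1_all : S_L1 := fun W hW C1 hC1 θ hθ δ η hδ hη =>
  Pool.Agent.V8H34.CR.FinA.loc_mean sic_all W hW C1 hC1 θ hθ δ η hδ hη

/-- **The asymptotic formula for almost all constant terms.** -/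
theorem final5 (a : ℕ) (ha : 1 ≤ a) (b : ℤ) (θ : ℝ) (hθ : 1 / 6 < θ) (δ : ℝ) (hδ : 0 < δ) :
    ∃ τ₁ : ℝ, 0 < τ₁ ∧ ∀ᶠ X : ℕ in atTop, ∀ y : ℕ, (X : ℝ) ^ θ ≤ y → y ^ 2 ≤ X →
      ∃ Bad ⊆ Icc 1 (X : ℤ), (#Bad : ℝ) ≤ δ * X ∧ ∀ c ∈ Icc 1 (X : ℤ), c ∉ Bad → Adm a b c →
        ∃ C : ℝ, (0 < C ∧ Tendsto (fun z => pC a b c z) atTop (𝓝 C)) ∧ τ₁ ≤ epsi a b * C * gP a b ∧
          |(cntP a b c y : ℝ) - epsi a b * C * gP a b * (y / Real.log X)| ≤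
            δ * (epsi a b * C * gP a b * (y / Real.log X)) := by
  obtain ⟨τ₁, hτ₁, h1⟩ := final3 l1_all a ha b θ hθ (min δ 1) (lt_min hδ one_pos) (min_le_right _ _)
  refine ⟨τ₁, hτ₁, ?_⟩
  filter_upwards [h1, eventually_ge_atTop 2] with X h1 hX2 y hy1 hy2
  obtain ⟨Bad, hBad, hBc, hB⟩ := h1 y hy1 hy2
  have hX0 : (0 : ℝ) ≤ X := Nat.cast_nonneg _
  have hlogX : 0 < Real.log X := Real.log_pos (by exact_mod_cast (by omega : 1 < X))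
  refine ⟨Bad, hBad, hBc.trans (mul_le_mul_of_nonneg_right (min_le_left _ _) hX0), fun c hc hcB hadm => ?_⟩
  obtain ⟨C, hC, hτC, h2⟩ := hB c hc hcB hadm
  refine ⟨C, hC, hτC, h2.trans ?_⟩
  have he := epsi_pos a b
  have hg := gP_pos a b
  have hC0 := hC.1
  apply mul_le_mul_of_nonneg_right (min_le_left _ _)
  positivity

/-- the same without the lower bound for the constant -/
theorem final4 (a : ℕ) (ha : 1 ≤ a) (b : ℤ) (θ : ℝ) (hθ : 1 / 6 < θ) (δ : ℝ) (hδ : 0 < δ) :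
    ∀ᶠ X : ℕ in atTop, ∀ y : ℕ, (X : ℝ) ^ θ ≤ y → y ^ 2 ≤ X →
      ∃ Bad ⊆ Icc 1 (X : ℤ), (#Bad : ℝ) ≤ δ * X ∧ ∀ c ∈ Icc 1 (X : ℤ), c ∉ Bad → Adm a b c →
        ∃ C : ℝ, (0 < C ∧ Tendsto (fun z => pC a b c z) atTop (𝓝 C)) ∧
          |(cntP a b c y : ℝ) - epsi a b * C * gP a b * (y / Real.log X)| ≤
            δ * (epsi a b * C * gP a b * (y / Real.log X)) := by
  obtain ⟨τ₁, -, h1⟩ := final5 a ha b θ hθ δ hδ
  filter_upwards [h1] with X h1 y hy1 hy2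
  obtain ⟨Bad, hBad, hBc, hB⟩ := h1 y hy1 hy2
  refine ⟨Bad, hBad, hBc, fun c hc hcB hadm => ?_⟩
  obtain ⟨C, hC, -, h2⟩ := hB c hc hcB hadm
  exact ⟨C, hC, h2⟩

end Pool.Agent.V8H10.AS
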